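import Pool.Agent.Y489.SP.Stm

/-! Project SP (MP_afaf30_gt), job SP-NUL: almost every fibre is totally separated (`S_NUL`). -/

set_option autoImplicit false

open MeasureTheory Set Metric Filter Topology
open scoped ENNReal NNReal

namespace Pool.Agent.Y401.SPN

open Pool.Agent.Y485.HS Pool.Agent.Y489.SP

/-- a maximal separated subset of the ball -/
lemma net (n : ℕ) {r : ℝ} (hr : 0 < r) : ∃ A : Finset (E n),
    (∀ a ∈ A, a ∈ closedBall (0 : E n) 3) ∧ (∀ a ∈ A, ∀ b ∈ A, a ≠ b → r ≤ dist a b) ∧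
    ∀ x ∈ closedBall (0 : E n) 3, ∃ a ∈ A, dist x a ≤ r := by
  classical
  have hc : IsCompact (closedBall (0 : E n) 3) := isCompact_closedBall 0 3
  obtain ⟨t, hts, htf, htc⟩ := hc.finite_cover_balls (half_pos hr)
  set P : Finset (E n) → Prop := fun A => (∀ a ∈ A, a ∈ closedBall (0 : E n) 3) ∧
    (∀ a ∈ A, ∀ b ∈ A, a ≠ b → r ≤ dist a b) with hP
  have hcard : ∀ A, P A → A.card ≤ htf.toFinset.card := by
    intro A hA
    have h1 : ∀ a ∈ A, ∃ c ∈ t, dist a c < r / 2 := by
      intro a ha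
      have h2 := htc (hA.1 a ha)
      simpa only [mem_iUnion, mem_ball, exists_prop] using h2
    choose! c hc1 hc2 using h1
    refine Finset.card_le_card_of_injOn c (fun a ha => htf.mem_toFinset.2 (hc1 a ha)) ?_
    intro a ha b hb hab
    by_contra hne
    have h3 := hA.2 a ha b hb hne
    have h4 := hc2 a ha
    have h5 := hc2 b hb
    have hab' : c a = c b := hab
    rw [← hab'] at h5
    have h6 := dist_triangle_right a b (c a)
    linarith
  set S : Set ℕ := {k | ∃ A, P A ∧ A.card = k} with hS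
  have hne : S.Nonempty := ⟨0, ∅, ⟨by simp, by simp⟩, by simp⟩
  have hbd : BddAbove S := ⟨htf.toFinset.card, by
    rintro k ⟨A, hA, rfl⟩
    exact hcard A hA⟩
  obtain ⟨A, hA, hAc⟩ := Nat.sSup_mem hne hbd
  refine ⟨A, hA.1, hA.2, fun x hx => ?_⟩
  by_contra hno
  push Not at hno
  have hxA : x ∉ A := by
    intro h
    have := hno x h
    rw [dist_self] at this
    linarith
  have hins : P (insert x A) := by
    refine ⟨fun a ha => ?_, fun a ha b hb hab => ?_⟩
    · rcases Finset.mem_insert.1 ha with rfl | ha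
      · exact hx
      · exact hA.1 a ha
    · rcases Finset.mem_insert.1 ha with h8 | h8 <;> rcases Finset.mem_insert.1 hb with h9 | h9
      · exact absurd (h8.trans h9.symm) hab
      · rw [h8]; exact (hno b h9).le
      · rw [h9, dist_comm]; exact (hno a h8).le
      · exact hA.2 a h8 b h9 hab
  have h7 : (insert x A).card ≤ sSup S := le_csSup hbd ⟨_, hins, rfl⟩
  rw [Finset.card_insert_of_notMem hxA, hAc] at h7
  omega

lemma vol_le {n : ℕ} (s : Set (E n)) (hs : Bornology.IsBounded s) :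
    volume s ≤ ENNReal.ofReal (Metric.diam s ^ n) * volume (ball (0 : E n) 1) := by
  rcases s.eq_empty_or_nonempty with rfl | ⟨p, hp⟩
  · simp
  · have h1 : s ⊆ closedBall p (Metric.diam s) := fun x hx =>
      mem_closedBall.2 (dist_le_diam_of_mem hs hx hp)
    refine (measure_mono h1).trans ?_
    rw [Measure.addHaar_closedBall volume p diam_nonneg, finrank_euclideanSpace_fin]

lemma coord {n : ℕ} (x a : E n) (i : Fin n) : |x i - a i| ≤ dist x a := by
  rw [dist_eq_norm]
  have := PiLp.norm_apply_le (x - a) i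
  rwa [PiLp.sub_apply, Real.norm_eq_abs] at this

lemma slice {n : ℕ} {F : E n → E n} {N : ℕ} (hN : 0 < N) (hF : ContinuousOn F (BB n))
    (hE : En N F) (i : Fin n) :
    ∀ᵐ t : ℝ, volume (F '' {x | x ∈ closedBall (0 : E n) 3 ∧ x i = t}) = 0 := by
  classical
  choose A hA1 hA2 hA3 using fun j : ℕ => net n (r := (1 / 2 : ℝ) ^ j) (by positivity)
  set D : ℕ → E n → ℝ := fun j a =>
    Metric.diam (F '' (closedBall a ((1 / 2 : ℝ) ^ j) ∩ closedBall 0 3)) ^ n with hD
  have hD0 : ∀ j a, 0 ≤ D j a := fun j a => pow_nonneg diam_nonneg _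
  set f : ℕ → ℝ → ℝ≥0∞ := fun j t => ∑ a ∈ A j,
    (Icc (a i - (1 / 2 : ℝ) ^ j) (a i + (1 / 2 : ℝ) ^ j)).indicator
      (fun _ => ENNReal.ofReal (D j a)) t with hf
  have hfm : ∀ j, Measurable (f j) := by
    intro j
    refine Finset.measurable_fun_sum _ fun a _ => ?_
    exact measurable_const.indicator measurableSet_Icc
  set ρ : ℝ := (1 / 2 : ℝ) ^ (1 / (N : ℝ)) with hρ
  have hN' : (0 : ℝ) < N := by exact_mod_cast hN
  have hρ0 : 0 ≤ ρ := by positivity
  have hρ1 : ρ < 1 := Real.rpow_lt_one (by norm_num) (by norm_num) (by positivity)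
  have hint : ∀ j, ∫⁻ t, f j t ≤ ENNReal.ofReal (2 * N * ρ ^ j) := by
    intro j
    set r : ℝ := (1 / 2 : ℝ) ^ j with hr
    have hr0 : 0 < r := by positivity
    have hr1 : r ≤ 1 := pow_le_one₀ (by norm_num) (by norm_num)
    have h1 : ∫⁻ t, f j t = ∑ a ∈ A j, ENNReal.ofReal (D j a) * ENNReal.ofReal (2 * r) := by
      simp only [hf]
      rw [lintegral_finsetSum _ fun a _ => measurable_const.indicator measurableSet_Icc]
      refine Finset.sum_congr rfl fun a _ => ?_
      rw [lintegral_indicator measurableSet_Icc, lintegral_const,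
        Measure.restrict_apply MeasurableSet.univ, univ_inter, Real.volume_Icc]
      congr 2
      ring
    have h2 : ∑ a ∈ A j, ENNReal.ofReal (D j a) * ENNReal.ofReal (2 * r)
        = ENNReal.ofReal ((∑ a ∈ A j, D j a) * (2 * r)) := by
      rw [ENNReal.ofReal_mul (Finset.sum_nonneg fun a _ => hD0 j a),
        ENNReal.ofReal_sum_of_nonneg fun a _ => hD0 j a, Finset.sum_mul]
    rw [h1, h2]
    apply ENNReal.ofReal_le_ofReal
    have h3 := hE r hr0 hr1 (A j) (hA1 j) (hA2 j)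
    have h4 : r ^ (1 / (N : ℝ) - 1) * r = ρ ^ j := by
      rw [Real.rpow_sub_one hr0.ne', div_mul_cancel₀ _ hr0.ne', hρ,
        Real.rpow_pow_comm (by norm_num)]
    calc (∑ a ∈ A j, D j a) * (2 * r) ≤ (N * r ^ (1 / (N : ℝ) - 1)) * (2 * r) := by gcongr
      _ = 2 * N * (r ^ (1 / (N : ℝ) - 1) * r) := by ring
      _ = 2 * N * ρ ^ j := by rw [h4]
  have hsum : ∫⁻ t, ∑' j, f j t ≠ ∞ := by
    rw [lintegral_tsum fun j => (hfm j).aemeasurable]
    refine ne_top_of_le_ne_top ?_ (ENNReal.tsum_le_tsum hint)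
    have hs : Summable fun j : ℕ => 2 * N * ρ ^ j :=
      (summable_geometric_of_lt_one hρ0 hρ1).mul_left _
    exact hs.tsum_ofReal_ne_top
  have hae := ae_lt_top (Measurable.tsum hfm) hsum
  filter_upwards [hae] with t ht
  set κ := volume (ball (0 : E n) 1) with hκ
  have hκt : κ ≠ ∞ := measure_ball_lt_top.ne
  have hz : Tendsto (fun j => f j t) atTop (𝓝 0) :=
    ENNReal.tendsto_atTop_zero_of_tsum_ne_top ht.ne
  have hz2 : Tendsto (fun j => f j t * κ) atTop (𝓝 0) := by
    have := ENNReal.Tendsto.mul_const hz (b := κ) (Or.inr hκt)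
    simpa using this
  refine le_antisymm (ge_of_tendsto' hz2 fun j => ?_) (zero_le)
  set r : ℝ := (1 / 2 : ℝ) ^ j with hr
  have hsub : F '' {x | x ∈ closedBall (0 : E n) 3 ∧ x i = t} ⊆
      ⋃ a ∈ (A j).filter (fun a => t ∈ Icc (a i - r) (a i + r)),
        F '' (closedBall a r ∩ closedBall 0 3) := by
    rintro y ⟨x, ⟨hx, hxt⟩, rfl⟩
    obtain ⟨a, haA, hxa⟩ := hA3 j x hx
    have h1 := coord x a i
    rw [hxt, abs_le] at h1
    refine mem_biUnion (x := a) ?_ ⟨x, ⟨mem_closedBall.2 hxa, hx⟩, rfl⟩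
    rw [Finset.mem_coe, Finset.mem_filter]
    exact ⟨haA, by linarith [h1.1], by linarith [h1.2]⟩
  refine (measure_mono hsub).trans ((measure_biUnion_finset_le _ _).trans ?_)
  have hb : ∀ a : E n, Bornology.IsBounded (F '' (closedBall a r ∩ closedBall 0 3)) := by
    intro a
    have hcomp : IsCompact (F '' closedBall (0 : E n) 3) :=
      (isCompact_closedBall 0 3).image_of_continuousOn
        (hF.mono (closedBall_subset_closedBall (by norm_num)))
    exact hcomp.isBounded.subset (image_mono inter_subset_right)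
  calc ∑ a ∈ (A j).filter (fun a => t ∈ Icc (a i - r) (a i + r)),
        volume (F '' (closedBall a r ∩ closedBall 0 3))
      ≤ ∑ a ∈ (A j).filter (fun a => t ∈ Icc (a i - r) (a i + r)), ENNReal.ofReal (D j a) * κ :=
        Finset.sum_le_sum fun a _ => vol_le _ (hb a)
    _ = f j t * κ := by
        rw [← Finset.sum_mul, Finset.sum_filter]
        simp only [hf, Set.indicator_apply, ← hr]

theorem t_NUL : S_NUL := by
  intro n hn F N0 hF hE0
  classical
  obtain ⟨N, hN, hE⟩ : ∃ N : ℕ, 0 < N ∧ En N F := by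
    rcases Nat.eq_zero_or_pos N0 with h0 | h0
    · refine ⟨1, one_pos, fun r hr hr1 A hA1 hA2 => ?_⟩
      have := hE0 r hr hr1 A hA1 hA2
      rw [h0, Nat.cast_zero, zero_mul] at this
      refine this.trans ?_
      positivity
    · exact ⟨N0, h0, hE0⟩
  have h1 : ∀ i : Fin n, ∃ T : Set ℝ, T.Countable ∧ Dense T ∧ ∀ t ∈ T,
      volume (F '' {x | x ∈ closedBall (0 : E n) 3 ∧ x i = t}) = 0 := by
    intro i
    have hd := Measure.dense_of_ae (slice hN hF hE i)
    obtain ⟨T, hT1, hT2, hT3⟩ := hd.exists_countable_dense_subset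
    exact ⟨T, hT2, hT3, fun t ht => hT1 ht⟩
  choose T hT1 hT2 hT3 using h1
  have h2 : ∀ᵐ y : E n, ∀ i : Fin n, ∀ t ∈ T i,
      y ∉ F '' {x | x ∈ closedBall (0 : E n) 3 ∧ x i = t} := by
    rw [ae_all_iff]
    intro i
    rw [ae_ball_iff (hT1 i)]
    intro t ht
    exact measure_eq_zero_iff_ae_notMem.1 (hT3 i t ht)
  filter_upwards [h2] with y hy x hx x' hx' hFx hFx' hne
  obtain ⟨i, hi⟩ : ∃ i : Fin n, x i ≠ x' i := by
    by_contra hall
    push Not at hall
    exact hne (PiLp.ext hall)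
  rcases lt_or_gt_of_ne hi with h3 | h3
  · obtain ⟨t, htT, ht1, ht2⟩ := (hT2 i).exists_between h3
    exact ⟨i, t, fun z hz hFz hzt => hy i t htT ⟨z, ⟨hz, hzt⟩, hFz⟩, Or.inl ⟨ht1, ht2⟩⟩
  · obtain ⟨t, htT, ht1, ht2⟩ := (hT2 i).exists_between h3
    exact ⟨i, t, fun z hz hFz hzt => hy i t htT ⟨z, ⟨hz, hzt⟩, hFz⟩, Or.inr ⟨ht1, ht2⟩⟩

end Pool.Agent.Y401.SPN

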